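import Mathlib

/-!
A checked pointwise inequality `∑ c_j log (Q_j(x)^2) ≤ P(x) - 1[x < -√3]` on `[-4, 4]`.
Polynomials are lists of rational coefficients; each logarithm is bounded by a tangent line, and the
resulting polynomial is bounded below on each of fifty intervals through its expansion at the midpoint.
-/

set_option autoImplicit false

namespace Pool.Agent.P.MP_46d9e0_co

/-- Evaluation of a coefficient list. -/
noncomputable def ev : List ℚ → ℝ → ℝ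
  | [], _ => 0
  | c :: p, x => c + x * ev p x

def padd : List ℚ → List ℚ → List ℚ
  | [], q => q
  | p, [] => p
  | a :: p, b :: q => (a + b) :: padd p q

def psmul (c : ℚ) : List ℚ → List ℚ
  | [] => []
  | a :: p => (c * a) :: psmul c p

def pmul : List ℚ → List ℚ → List ℚ
  | [], _ => []
  | a :: p, q => padd (psmul a q) (0 :: pmul p q)

def pshift (m : ℚ) : List ℚ → List ℚ
  | [] => []
  | c :: p => padd [c] (pmul [m, 1] (pshift m p))

def absb (r : ℚ) : List ℚ → ℚ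
  | [] => 0
  | c :: p => |c| + r * absb r p

def lowb (r : ℚ) : List ℚ → ℚ
  | [] => 0
  | c :: p => c - r * absb r p

lemma ev_padd (p q : List ℚ) (x : ℝ) : ev (padd p q) x = ev p x + ev q x := by
  induction p generalizing q with
  | nil => simp [padd, ev]
  | cons a p ih =>
    cases q with
    | nil => simp [padd, ev]
    | cons b q => simp only [padd, ev, ih]; push_cast; ring

lemma ev_psmul (c : ℚ) (p : List ℚ) (x : ℝ) : ev (psmul c p) x = c * ev p x := by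
  induction p with
  | nil => simp [psmul, ev]
  | cons a p ih => simp only [psmul, ev, ih]; push_cast; ring

lemma ev_pmul (p q : List ℚ) (x : ℝ) : ev (pmul p q) x = ev p x * ev q x := by
  induction p with
  | nil => simp [pmul, ev]
  | cons a p ih => simp only [pmul, ev_padd, ev_psmul, ev, ih]; push_cast; ring

lemma ev_pshift (m : ℚ) (p : List ℚ) (h : ℝ) : ev (pshift m p) h = ev p (m + h) := by
  induction p with
  | nil => simp [pshift, ev]
  | cons a p ih => simp only [pshift, ev_padd, ev_pmul, ev, ih]; push_cast; ring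

lemma abs_ev_le (r : ℚ) (p : List ℚ) (h : ℝ) (hh : |h| ≤ r) : |ev p h| ≤ absb r p := by
  induction p with
  | nil => simp [absb, ev]
  | cons a p ih =>
    simp only [absb, ev]
    push_cast
    refine le_trans (abs_add_le _ _) (add_le_add le_rfl ?_)
    rw [abs_mul]
    exact mul_le_mul hh ih (abs_nonneg _) (le_trans (abs_nonneg _) hh)

lemma lowb_le (r : ℚ) (p : List ℚ) (h : ℝ) (hh : |h| ≤ r) : (lowb r p : ℝ) ≤ ev p h := by
  cases p with
  | nil => simp [lowb, ev]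
  | cons a p =>
    simp only [lowb, ev]
    push_cast
    have h1 : |h * ev p h| ≤ r * absb r p := by
      rw [abs_mul]
      exact mul_le_mul hh (abs_ev_le r p h hh) (abs_nonneg _) (le_trans (abs_nonneg _) hh)
    linarith [neg_abs_le (h * ev p h)]

/-- The point of tangency. -/
def tval (d : ℕ × ℕ × ℕ) : ℚ := 2 ^ d.1 / 2 ^ d.2.1 * (33 / 32) ^ d.2.2

/-- An upper bound for the logarithm of the point of tangency. -/
def lval (d : ℕ × ℕ × ℕ) : ℚ :=
  d.1 * (6931471808 / 10 ^ 10) - d.2.1 * (6931471803 / 10 ^ 10) + d.2.2 * (30771659 / 10 ^ 9)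

lemma log_beta : Real.log (33 / 32) ≤ 30771659 / 10 ^ 9 := by
  have h := Real.abs_log_sub_add_sum_range_le (x := 1 / 33) (by norm_num [abs_of_pos]) 6
  have h1 : Real.log (33 / 32) = - Real.log (1 - 1 / 33) := by
    rw [← Real.log_inv]; norm_num
  rw [h1]
  have h2 := (abs_le.mp h).1
  norm_num [Finset.sum_range_succ, abs_of_pos] at h2 ⊢
  linarith

lemma tval_pos (d : ℕ × ℕ × ℕ) : (0 : ℝ) < tval d := by
  unfold tval; push_cast; positivity

lemma log_tval_le (d : ℕ × ℕ × ℕ) : Real.log (tval d) ≤ lval d := by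
  unfold tval lval
  push_cast
  rw [Real.log_mul (by positivity) (by positivity), Real.log_div (by positivity) (by positivity),
    Real.log_pow, Real.log_pow, Real.log_pow]
  have h1 := Real.log_two_gt_d9
  have h2 := Real.log_two_lt_d9
  have h3 := log_beta
  have a1 : (d.1 : ℝ) * Real.log 2 ≤ d.1 * (6931471808 / 10 ^ 10) :=
    mul_le_mul_of_nonneg_left (by norm_num at h2 ⊢; linarith) (Nat.cast_nonneg _)
  have a2 : (d.2.1 : ℝ) * (6931471803 / 10 ^ 10) ≤ d.2.1 * Real.log 2 :=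
    mul_le_mul_of_nonneg_left (by norm_num at h1 ⊢; linarith) (Nat.cast_nonneg _)
  have a3 : (d.2.2 : ℝ) * Real.log (33 / 32) ≤ d.2.2 * (30771659 / 10 ^ 9) :=
    mul_le_mul_of_nonneg_left h3 (Nat.cast_nonneg _)
  linarith

def term (c : ℚ) (q : List ℚ) (d : ℕ × ℕ × ℕ) : List ℚ :=
  psmul (-c) (padd [lval d - 1] (psmul (1 / tval d) (pmul q q)))

lemma ev_term_le {c : ℚ} (hc : 0 ≤ c) (q : List ℚ) (d : ℕ × ℕ × ℕ) {x : ℝ} (hx : ev q x ≠ 0) :
    ev (term c q d) x ≤ -(c * Real.log (ev q x ^ 2)) := by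
  have ht := tval_pos d
  have hy : 0 < ev q x ^ 2 := by positivity
  have h1 := Real.log_le_sub_one_of_pos (div_pos hy ht)
  rw [Real.log_div hy.ne' ht.ne'] at h1
  have h2 := log_tval_le d
  have h3 : Real.log (ev q x ^ 2) ≤ (lval d - 1) + 1 / tval d * (ev q x * ev q x) := by
    have : ev q x ^ 2 / tval d = 1 / tval d * (ev q x * ev q x) := by ring
    linarith
  simp only [term, ev_psmul, ev_padd, ev_pmul, ev]
  push_cast
  have hc' : (0 : ℝ) ≤ c := by exact_mod_cast hc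
  have := mul_le_mul_of_nonneg_left h3 hc'
  linarith

def combine : List (ℚ × List ℚ) → List (ℕ × ℕ × ℕ) → List ℚ
  | [], _ => []
  | cq :: cs, [] => padd (term cq.1 cq.2 (0, 0, 0)) (combine cs [])
  | cq :: cs, d :: ds => padd (term cq.1 cq.2 d) (combine cs ds)

/-- The weighted sum of the logarithms. -/
noncomputable def logsum : List (ℚ × List ℚ) → ℝ → ℝ
  | [], _ => 0
  | cq :: cs, x => cq.1 * Real.log (ev cq.2 x ^ 2) + logsum cs x

lemma ev_combine_le (cs : List (ℚ × List ℚ)) (ds : List (ℕ × ℕ × ℕ)) {x : ℝ}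
    (h : ∀ cq ∈ cs, 0 ≤ cq.1 ∧ ev cq.2 x ≠ 0) : ev (combine cs ds) x ≤ -logsum cs x := by
  induction cs generalizing ds with
  | nil => simp [combine, logsum, ev]
  | cons cq cs ih =>
    have h1 := h cq (by simp)
    have h2 : ∀ cq' ∈ cs, 0 ≤ cq'.1 ∧ ev cq'.2 x ≠ 0 := fun cq' hc => h cq' (by simp [hc])
    cases ds with
    | nil =>
      simp only [combine, logsum, ev_padd]
      linarith [ev_term_le h1.1 cq.2 (0, 0, 0) h1.2, ih [] h2]
    | cons d ds =>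
      simp only [combine, logsum, ev_padd]
      linarith [ev_term_le h1.1 cq.2 d h1.2, ih ds h2]

/-- The auxiliary polynomials with their weights. -/
def cqs : List (ℚ × List ℚ) := [
  ((10849/500000), [-3, 0, 1]),
  ((4239/1000000), [2, 1]),
  ((1657/1000000), [-1, 1]),
  ((3431/1000000), [-5, -1, 1]),
  ((569/500000), [-3, 2, 2]),
  ((1199/500000), [6, -4, -2, 1]),
  ((2201/1000000), [7, -1, -6, 0, 1])]

/-- The moment polynomial. -/
def pl : List ℚ := [(193633/1000000), (-239101/1000000), (22423/250000), (0), (-1179/625000)]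

/-- The indicator of the half-line below minus the square root of three. -/
noncomputable def ind (x : ℝ) : ℝ := if x < -√3 then 1 else 0

def okI (a b : ℚ) (ds : List (ℕ × ℕ × ℕ)) : Bool :=
  decide (0 ≤ lowb ((b - a) / 2) (pshift ((a + b) / 2)
    (padd (padd pl [if a < -433 / 250 then -1 else 0]) (combine cqs ds))))

def check (e : ℚ) : ℚ → List (ℚ × List (ℕ × ℕ × ℕ)) → Bool
  | a, [] => decide (e ≤ a)
  | a, bd :: l => okI a bd.1 bd.2 && check e bd.1 l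

lemma okI_sound {a b : ℚ} {ds : List (ℕ × ℕ × ℕ)} (h : okI a b ds = true) {x : ℝ} (ha : (a : ℝ) ≤ x)
    (hb : x ≤ b) (hq : ∀ cq ∈ cqs, 0 ≤ cq.1 ∧ ev cq.2 x ≠ 0) :
    logsum cqs x ≤ ev pl x - ind x := by
  unfold okI at h
  rw [decide_eq_true_eq] at h
  have h1 := lowb_le ((b - a) / 2) (pshift ((a + b) / 2)
    (padd (padd pl [if a < -433 / 250 then -1 else 0]) (combine cqs ds))) (x - ((a + b) / 2 : ℚ))
    (by push_cast; rw [abs_le]; constructor <;> linarith)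
  have h0 : (0 : ℝ) ≤ (lowb ((b - a) / 2) (pshift ((a + b) / 2)
    (padd (padd pl [if a < -433 / 250 then -1 else 0]) (combine cqs ds))) : ℚ) := by
    exact_mod_cast h
  rw [ev_pshift, add_sub_cancel, ev_padd, ev_padd] at h1
  have h2 := ev_combine_le cqs ds hq
  have h3 : ev [if a < -433 / 250 then -1 else 0] x ≤ -ind x := by
    unfold ind
    by_cases hlt : a < -433 / 250
    · simp only [hlt, if_true, ev]
      split_ifs <;> norm_num
    · have hx : ¬ x < -√3 := by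
        have h4 : ((-433 / 250 : ℚ) : ℝ) ≤ a := by exact_mod_cast not_lt.mp hlt
        have h5 : (433 / 250 : ℝ) ≤ √3 := Real.le_sqrt_of_sq_le (by norm_num)
        push_cast at h4
        linarith
      simp [hlt, hx, ev]
  linarith

lemma check_sound (e : ℚ) (l : List (ℚ × List (ℕ × ℕ × ℕ))) (a : ℚ) (h : check e a l = true)
    {x : ℝ} (ha : (a : ℝ) < x) (he : x ≤ e) (hq : ∀ cq ∈ cqs, 0 ≤ cq.1 ∧ ev cq.2 x ≠ 0) :
    logsum cqs x ≤ ev pl x - ind x := by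
  induction l generalizing a with
  | nil =>
    simp only [check, decide_eq_true_eq] at h
    have : (e : ℝ) ≤ a := by exact_mod_cast h
    linarith
  | cons bd l ih =>
    simp only [check, Bool.and_eq_true] at h
    by_cases hx : x ≤ bd.1
    · exact okI_sound h.1 ha.le hx hq
    · exact ih bd.1 h.2 (not_le.mp hx)

/-- Right end points of the intervals with the tangency data. -/
def data : List (ℚ × List (ℕ × ℕ × ℕ)) := [
  ((-3841/1024), [(7, 0, 4), (1, 0, 19), (4, 0, 13), (7, 0, 14), (8, 0, 13), (12, 0, 3), (14, 0, 10)]),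
  ((-3329/1024), [(6, 0, 11), (1, 0, 5), (4, 0, 8), (6, 0, 21), (7, 0, 18), (11, 0, 6), (13, 0, 5)]),
  ((-2305/1024), [(4, 0, 21), (0, 1, 16), (3, 0, 19), (5, 0, 9), (6, 0, 3), (9, 0, 10), (10, 0, 17)]),
  ((-8401/4096), [(1, 0, 12), (0, 5, 2), (3, 0, 7), (1, 0, 18), (2, 0, 3), (4, 0, 15), (3, 0, 11)]),
  ((-4007/2048), [(0, 0, 2), (0, 10, 10), (3, 0, 4), (0, 0, 3), (0, 0, 4), (2, 0, 7), (0, 0, 10)]),
  ((-7877/4096), [(0, 1, 5), (0, 9, 22), (3, 0, 3), (0, 1, 0), (0, 2, 17), (0, 0, 6), (0, 2, 5)]),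
  ((-3907/2048), [(0, 2, 19), (0, 8, 20), (3, 0, 2), (0, 2, 10), (0, 2, 1), (0, 1, 1), (0, 3, 2)]),
  ((-3881/2048), [(0, 2, 14), (0, 7, 7), (3, 0, 2), (0, 2, 2), (0, 3, 13), (0, 2, 1), (0, 4, 8)]),
  ((-7719/4096), [(0, 2, 9), (0, 7, 14), (3, 0, 1), (0, 3, 17), (0, 3, 2), (0, 4, 20), (0, 5, 14)]),
  ((-7633/4096), [(0, 2, 2), (0, 6, 1), (3, 0, 1), (0, 3, 6), (0, 4, 8), (0, 5, 2), (0, 6, 10)]),
  ((-7537/4096), [(0, 3, 13), (0, 6, 11), (3, 0, 1), (0, 4, 9), (0, 6, 19), (0, 4, 1), (0, 9, 21)]),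
  ((-7477/4096), [(0, 3, 1), (0, 6, 19), (3, 0, 0), (0, 5, 6), (0, 8, 3), (0, 3, 18), (0, 9, 3)]),
  ((-465/256), [(0, 4, 15), (0, 5, 1), (2, 0, 22), (0, 6, 7), (0, 11, 6), (0, 2, 14), (0, 8, 16)]),
  ((-3709/2048), [(0, 4, 10), (0, 5, 3), (2, 0, 22), (0, 7, 11), (0, 9, 8), (0, 1, 0), (0, 7, 10)]),
  ((-3697/2048), [(0, 4, 5), (0, 5, 5), (2, 0, 22), (0, 8, 15), (0, 8, 15), (0, 1, 7), (0, 7, 20)]),
  ((-7367/4096), [(0, 5, 22), (0, 5, 7), (2, 0, 22), (0, 9, 9), (0, 7, 15), (0, 1, 13), (0, 6, 6)]),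
  ((-7313/4096), [(0, 5, 12), (0, 5, 11), (2, 0, 22), (0, 11, 5), (0, 6, 18), (0, 1, 22), (0, 6, 18)]),
  ((-7289/4096), [(0, 5, 0), (0, 5, 13), (2, 0, 21), (0, 10, 20), (0, 5, 12), (0, 0, 7), (0, 5, 3)]),
  ((-7269/4096), [(0, 6, 15), (0, 5, 15), (2, 0, 21), (0, 8, 3), (0, 5, 19), (0, 0, 11), (0, 5, 7)]),
  ((-7247/4096), [(0, 6, 7), (0, 5, 17), (2, 0, 21), (0, 7, 0), (0, 4, 4), (0, 0, 14), (0, 5, 11)]),
  ((-7223/4096), [(0, 7, 20), (0, 5, 18), (2, 0, 21), (0, 7, 17), (0, 4, 10), (0, 0, 18), (0, 5, 14)]),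
  ((-7175/4096), [(0, 7, 2), (0, 5, 21), (2, 0, 21), (0, 6, 14), (0, 4, 20), (1, 0, 0), (0, 5, 18)]),
  ((-433/250), [(0, 9, 6), (0, 4, 2), (2, 0, 21), (0, 5, 17), (0, 3, 11), (1, 0, 9), (0, 4, 2)]),
  ((-741/500), [(0, 2, 8), (0, 3, 10), (2, 0, 17), (0, 1, 19), (0, 0, 10), (3, 0, 9), (0, 5, 9)]),
  ((-491/500), [(1, 0, 6), (0, 1, 9), (2, 0, 8), (2, 0, 11), (2, 0, 12), (5, 0, 2), (2, 0, 7)]),
  ((9/500), [(2, 0, 16), (1, 0, 8), (1, 0, 7), (4, 0, 2), (3, 0, 9), (5, 0, 11), (4, 0, 20)]),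
  ((31527/64000), [(3, 0, 1), (2, 0, 8), (0, 1, 7), (4, 0, 16), (2, 0, 11), (4, 0, 14), (5, 0, 5)]),
  ((183733/256000), [(2, 0, 18), (2, 0, 17), (0, 3, 10), (4, 0, 17), (0, 0, 9), (3, 0, 6), (4, 0, 6)]),
  ((55027/64000), [(2, 0, 11), (2, 0, 22), (0, 5, 15), (4, 0, 17), (0, 3, 4), (2, 0, 4), (3, 0, 2)]),
  ((229733/256000), [(2, 0, 7), (3, 0, 1), (0, 7, 21), (4, 0, 16), (0, 4, 16), (1, 0, 9), (2, 0, 3)]),
  ((481091/512000), [(2, 0, 5), (3, 0, 2), (0, 8, 19), (4, 0, 15), (0, 2, 5), (1, 0, 0), (1, 0, 14)]),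
  ((256733/256000), [(2, 0, 2), (3, 0, 3), (0, 10, 20), (4, 0, 15), (0, 1, 12), (0, 0, 9), (0, 0, 17)]),
  ((280983/256000), [(1, 0, 19), (3, 0, 5), (0, 8, 6), (4, 0, 14), (0, 0, 19), (0, 1, 7), (0, 2, 21)]),
  ((158679/128000), [(1, 0, 10), (3, 0, 7), (0, 5, 2), (4, 0, 12), (2, 0, 4), (0, 3, 3), (0, 1, 6)]),
  ((330233/256000), [(0, 0, 22), (3, 0, 9), (0, 4, 4), (4, 0, 10), (2, 0, 20), (0, 4, 2), (0, 0, 18)]),
  ((689341/512000), [(0, 0, 15), (3, 0, 10), (0, 4, 16), (4, 0, 9), (3, 0, 6), (0, 3, 19), (1, 0, 13)]),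
  ((180429/128000), [(0, 0, 6), (3, 0, 12), (0, 3, 5), (4, 0, 7), (3, 0, 15), (0, 2, 22), (2, 0, 5)]),
  ((393233/256000), [(0, 1, 12), (3, 0, 13), (0, 3, 19), (4, 0, 5), (4, 0, 5), (0, 0, 3), (2, 0, 21)]),
  ((457983/256000), [(0, 3, 16), (3, 0, 17), (0, 2, 19), (3, 0, 21), (5, 0, 4), (1, 0, 7), (3, 0, 13)]),
  ((1025091/512000), [(0, 1, 2), (3, 0, 21), (0, 1, 16), (3, 0, 10), (6, 0, 1), (1, 0, 20), (3, 0, 12)]),
  ((558483/256000), [(1, 0, 1), (4, 0, 1), (0, 0, 6), (2, 0, 20), (6, 0, 14), (1, 0, 20), (2, 0, 8)]),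
  ((587483/256000), [(2, 0, 1), (4, 0, 4), (0, 0, 14), (2, 0, 7), (7, 0, 1), (1, 0, 14), (0, 1, 5)]),
  ((1202341/512000), [(2, 0, 12), (4, 0, 5), (0, 0, 18), (1, 0, 20), (7, 0, 6), (1, 0, 6), (1, 0, 5)]),
  ((1243341/512000), [(2, 0, 20), (4, 0, 6), (0, 0, 21), (1, 0, 12), (7, 0, 10), (0, 0, 19), (3, 0, 7)]),
  ((1277841/512000), [(3, 0, 5), (4, 0, 7), (1, 0, 2), (0, 0, 22), (7, 0, 14), (0, 0, 3), (4, 0, 15)]),
  ((1346841/512000), [(3, 0, 16), (4, 0, 9), (1, 0, 7), (0, 0, 2), (7, 0, 20), (0, 2, 16), (6, 0, 5)]),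
  ((1484841/512000), [(4, 0, 11), (4, 0, 11), (1, 0, 15), (0, 2, 0), (8, 0, 7), (0, 0, 22), (8, 0, 11)]),
  ((1691841/512000), [(5, 0, 12), (4, 0, 16), (2, 0, 4), (1, 0, 19), (9, 0, 0), (4, 0, 17), (10, 0, 21)]),
  ((2002341/512000), [(6, 0, 17), (4, 0, 22), (2, 0, 18), (4, 0, 13), (9, 0, 20), (7, 0, 17), (13, 0, 13)]),
  ((4), [(7, 0, 7), (5, 0, 3), (3, 0, 3), (5, 0, 11), (10, 0, 8), (8, 0, 17), (14, 0, 12)])]

lemma check_data : check 4 (-4097/1024) data = true := by decide +kernel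

theorem pointwise {x : ℝ} (hx : |x| ≤ 4) (hq : ∀ cq ∈ cqs, ev cq.2 x ≠ 0) :
    logsum cqs x ≤ ev pl x - ind x := by
  have hc : ∀ cq ∈ cqs, 0 ≤ cq.1 := by decide +kernel
  rw [abs_le] at hx
  refine check_sound 4 data _ check_data ?_ ?_ (fun cq h => ⟨hc cq h, hq cq h⟩)
  · push_cast; linarith [hx.1]
  · push_cast; exact hx.2

end Pool.Agent.P.MP_46d9e0_co
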