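import Pool.Agent.P.MP_46d9e0_co.Poly

/-!
Moments of the adjacency spectrum of a graph of maximum degree at most four, and the count of the
eigenvalues below minus the square root of three.
-/

set_option autoImplicit false

namespace Pool.Agent.P.MP_46d9e0_co

open Polynomial Finset Matrix

variable {V : Type} [Fintype V] [DecidableEq V]

lemma trace_pow_eq {A : Matrix V V ℝ} (hA : A.IsHermitian) (k : ℕ) :
    (A ^ k).trace = ∑ i, hA.eigenvalues i ^ k := by
  conv_lhs => rw [hA.spectral_theorem, ← map_pow, Unitary.conjStarAlgAut_apply, trace_mul_comm,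
    ← mul_assoc]
  simp [diagonal_pow]

variable (G : SimpleGraph V) [DecidableRel G.Adj]

omit [DecidableEq V] in
lemma sq_entry_nat (u v : V) : ∃ k : ℕ, (G.adjMatrix ℝ * G.adjMatrix ℝ) u v = k := by
  refine ⟨(G.adjMatrix ℕ * G.adjMatrix ℕ) u v, ?_⟩
  simp only [Matrix.mul_apply, SimpleGraph.adjMatrix_apply]
  push_cast
  rfl

omit [DecidableEq V] in
lemma sum_sq_entries :
    ∑ u, ∑ v, (G.adjMatrix ℝ * G.adjMatrix ℝ) u v = ∑ w, (G.degree w : ℝ) ^ 2 := by
  simp only [Matrix.mul_apply]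
  have h1 : ∀ w, (G.degree w : ℝ) = ∑ v, G.adjMatrix ℝ w v := by
    intro w
    rw [G.degree_eq_sum_if_adj]
    simp only [SimpleGraph.adjMatrix_apply]
  have h2 : ∀ w, (G.degree w : ℝ) = ∑ u, G.adjMatrix ℝ u w := by
    intro w
    rw [h1]
    exact Finset.sum_congr rfl (fun u _ => by simp only [SimpleGraph.adjMatrix_apply, G.adj_comm])
  calc ∑ u, ∑ v, ∑ w, G.adjMatrix ℝ u w * G.adjMatrix ℝ w v
      = ∑ u, ∑ w, ∑ v, G.adjMatrix ℝ u w * G.adjMatrix ℝ w v :=
        Finset.sum_congr rfl (fun u _ => Finset.sum_comm)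
    _ = ∑ w, ∑ u, ∑ v, G.adjMatrix ℝ u w * G.adjMatrix ℝ w v := Finset.sum_comm
    _ = ∑ w, (G.degree w : ℝ) ^ 2 := by
        refine Finset.sum_congr rfl (fun w _ => ?_)
        rw [← Finset.sum_mul_sum, ← h1, ← h2, sq]

lemma trace_two : (G.adjMatrix ℝ ^ 2).trace = ∑ v, (G.degree v : ℝ) := by
  rw [sq, Matrix.trace]
  exact Finset.sum_congr rfl (fun v _ => G.adjMatrix_mul_self_apply_self v)

lemma trace_four : ∑ v, (G.degree v : ℝ) * (2 * G.degree v - 1) ≤ (G.adjMatrix ℝ ^ 4).trace := by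
  set B := G.adjMatrix ℝ * G.adjMatrix ℝ with hB
  have h4 : G.adjMatrix ℝ ^ 4 = B * B := by rw [hB]; noncomm_ring
  have hsymm : ∀ u v, B v u = B u v := by
    intro u v
    simp only [hB, Matrix.mul_apply, SimpleGraph.adjMatrix_apply, G.adj_comm]
    exact Finset.sum_congr rfl (fun w _ => mul_comm _ _)
  have htr : (B * B).trace = ∑ u, ∑ v, B u v ^ 2 := by
    simp only [Matrix.trace, Matrix.diag_apply]
    refine Finset.sum_congr rfl (fun u _ => ?_)
    rw [Matrix.mul_apply]
    exact Finset.sum_congr rfl (fun v _ => by rw [hsymm u v, sq])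
  have hpt : ∀ u v, B u v + (if u = v then (G.degree u : ℝ) ^ 2 - G.degree u else 0) ≤ B u v ^ 2 := by
    intro u v
    split_ifs with h
    · subst h
      rw [hB, G.adjMatrix_mul_self_apply_self]
      linarith
    · obtain ⟨k, hk⟩ := sq_entry_nat G u v
      rw [hB, hk, add_zero]
      exact_mod_cast Nat.le_self_pow (by norm_num) k
  rw [h4, htr]
  refine le_trans (le_of_eq ?_)
    (Finset.sum_le_sum (fun u _ => Finset.sum_le_sum (fun v _ => hpt u v)))
  simp only [Finset.sum_add_distrib, Finset.sum_ite_eq, Finset.mem_univ, if_true]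
  rw [hB, sum_sq_entries, ← Finset.sum_add_distrib]
  exact Finset.sum_congr rfl (fun v _ => by ring)

lemma abs_eigenvalue_le (hd : ∀ v, G.degree v ≤ 4) (i : V) :
    |(G.isHermitian_adjMatrix ℝ).eigenvalues i| ≤ 4 := by
  set hA := G.isHermitian_adjMatrix ℝ
  have hev : Module.End.HasEigenvalue (Matrix.toLin' (G.adjMatrix ℝ)) (hA.eigenvalues i) := by
    rw [Module.End.hasEigenvalue_iff_mem_spectrum, Matrix.spectrum_toLin']
    exact hA.eigenvalues_mem_spectrum_real i
  obtain ⟨k, hk⟩ := eigenvalue_mem_ball hev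
  rw [Metric.mem_closedBall, Real.dist_eq] at hk
  simp only [SimpleGraph.adjMatrix_apply, SimpleGraph.irrefl, if_false, sub_zero] at hk
  refine le_trans hk (le_trans (Finset.sum_le_sum_of_subset_of_nonneg (Finset.erase_subset _ _)
    (fun _ _ _ => norm_nonneg _)) ?_)
  have : ∑ j, ‖(if G.Adj k j then (1 : ℝ) else 0)‖ = G.degree k := by
    rw [G.degree_eq_sum_if_adj]
    exact Finset.sum_congr rfl (fun j _ => by split_ifs <;> simp)
  rw [this]
  exact_mod_cast hd k

theorem sum_ind_le (hd : ∀ v, G.degree v ≤ 4) :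
    ∑ i, ind ((G.isHermitian_adjMatrix ℝ).eigenvalues i) ≤ 4996 / 10000 * Fintype.card V := by
  set hA := G.isHermitian_adjMatrix ℝ
  have hmap : rp (G.adjMatrix ℤ).charpoly = (G.adjMatrix ℝ).charpoly := by
    rw [rp, ← Matrix.charpoly_map]
    congr 1
    ext u v
    simp only [Matrix.map_apply, SimpleGraph.adjMatrix_apply]
    split_ifs <;> simp
  have hroots : (G.adjMatrix ℝ).charpoly.roots = Multiset.map hA.eigenvalues Finset.univ.val := by
    rw [hA.roots_charpoly_eq_eigenvalues]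
    rfl
  have h0 := sum_phi_nonneg _ (G.adjMatrix ℤ).charpoly rfl (Matrix.charpoly_monic _)
    (by rw [hmap]; exact hA.splits_charpoly) (by
      rw [hmap, hroots]
      intro x hx
      obtain ⟨i, -, rfl⟩ := Multiset.mem_map.mp hx
      exact abs_eigenvalue_le G hd i)
  rw [hmap, hroots, Multiset.map_map] at h0
  have h1 : 0 ≤ ∑ i, phi (hA.eigenvalues i) := h0
  have t1 := trace_pow_eq hA 1
  have t2 := trace_pow_eq hA 2
  have t4 := trace_pow_eq hA 4
  rw [pow_one, G.trace_adjMatrix ℝ] at t1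
  rw [trace_two] at t2
  have t4' := trace_four G
  rw [t4] at t4'
  simp only [pow_one] at t1
  simp only [phi_eq, Finset.sum_sub_distrib, Finset.sum_add_distrib, ← Finset.mul_sum,
    Finset.sum_const, Finset.card_univ, nsmul_eq_mul] at h1
  have h2 : ∑ v : V, (193633 / 1000000 + 22423 / 250000 * (G.degree v : ℝ)
      - 1179 / 625000 * ((G.degree v : ℝ) * (2 * G.degree v - 1))) ≤ ∑ _v : V, (4996 / 10000 : ℝ) := by
    refine Finset.sum_le_sum (fun v _ => ?_)
    have := hd v
    generalize G.degree v = d at this ⊢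
    interval_cases d <;> norm_num
  simp only [Finset.sum_sub_distrib, Finset.sum_add_distrib, ← Finset.mul_sum,
    Finset.sum_const, Finset.card_univ, nsmul_eq_mul] at h2
  rw [← t1, ← t2] at h1
  linarith

theorem main (hd : ∀ v, G.degree v ≤ 4) (i : Fin (Fintype.card V))
    (hi : (i : ℕ) ≤ Fintype.card V / 2) : -√3 ≤ (G.isHermitian_adjMatrix ℝ).eigenvalues₀ i := by
  set hA := G.isHermitian_adjMatrix ℝ
  by_contra hlt
  rw [not_le] at hlt
  have h1 := sum_ind_le G hd
  have h2 : ∑ j, ind (hA.eigenvalues j) = ∑ j, ind (hA.eigenvalues₀ j) :=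
    Equiv.sum_comp (Fintype.equivOfCardEq (Fintype.card_fin _)).symm (fun j => ind (hA.eigenvalues₀ j))
  have h3 : ∑ j ∈ Finset.Ici i, (1 : ℝ) ≤ ∑ j, ind (hA.eigenvalues₀ j) := by
    refine le_trans (le_of_eq ?_) (Finset.sum_le_sum_of_subset_of_nonneg (Finset.subset_univ
      (Finset.Ici i)) (fun j _ _ => by unfold ind; split_ifs <;> norm_num))
    refine Finset.sum_congr rfl (fun j hj => ?_)
    have := hA.eigenvalues₀_antitone (Finset.mem_Ici.mp hj)
    exact (if_pos (lt_of_le_of_lt this hlt)).symm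
  rw [Finset.sum_const, Fin.card_Ici, nsmul_eq_mul, mul_one] at h3
  have h4 : Fintype.card V ≤ 2 * (Fintype.card V - i) := by omega
  have h5 : (Fintype.card V : ℝ) ≤ 2 * ((Fintype.card V - i : ℕ) : ℝ) := by exact_mod_cast h4
  have h6 : (0 : ℝ) < Fintype.card V := by exact_mod_cast i.pos
  rw [h2] at h1
  linarith

end Pool.Agent.P.MP_46d9e0_co
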