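import Pool.Agent.P.MP_46d9e0_co.Check

/-!
For a monic integer polynomial with all roots real and in `[-4, 4]`, the sum over the roots of
`P(x) - 1[x < -√3]` is nonnegative.
-/

set_option autoImplicit false

namespace Pool.Agent.P.MP_46d9e0_co

open Polynomial

/-- The real polynomial attached to an integer polynomial. -/
noncomputable abbrev rp (Q : ℤ[X]) : ℝ[X] := Q.map (Int.castRingHom ℝ)

/-- The function summed over the roots. -/
noncomputable def phi (x : ℝ) : ℝ := ev pl x - ind x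

lemma phi_eq (x : ℝ) : phi x = 193633 / 1000000 - 239101 / 1000000 * x + 22423 / 250000 * x ^ 2
    - 1179 / 625000 * x ^ 4 - ind x := by
  simp only [phi, pl, ev]
  push_cast
  ring

lemma log_sum_nonneg {R : ℤ[X]} (hR : R.Monic) (hs : (rp R).Splits) (Q : ℤ[X])
    (hQ : ∀ x ∈ (rp R).roots, (rp Q).eval x ≠ 0) :
    0 ≤ ((rp R).roots.map (fun x => Real.log ((rp Q).eval x ^ 2))).sum := by
  have h1 := resultant_eq_prod_eval (rp R) (rp Q) Q.natDegree natDegree_map_le hs
  rw [resultant_map_map, (hR.map _).leadingCoeff, one_pow, one_mul] at h1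
  set z := resultant R Q (rp R).natDegree Q.natDegree with hz
  have hne : ((rp R).roots.map (rp Q).eval).prod ≠ 0 := by
    apply Multiset.prod_ne_zero
    intro h
    obtain ⟨x, hx, h0⟩ := Multiset.mem_map.mp h
    exact hQ x hx h0
  have hz0 : z ≠ 0 := by
    intro h
    rw [h, map_zero] at h1
    exact hne h1.symm
  have h2 : (1 : ℝ) ≤ ((rp R).roots.map (fun x => (rp Q).eval x ^ 2)).prod := by
    rw [Multiset.prod_map_pow, ← h1]
    have : (1 : ℤ) ≤ z ^ 2 := by
      have := Int.one_le_abs hz0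
      nlinarith [sq_abs z]
    simp only [eq_intCast]
    exact_mod_cast this
  have h3 := Real.log_multiset_prod (s := (rp R).roots.map (fun x => (rp Q).eval x ^ 2)) (by
    intro y hy
    obtain ⟨x, hx, rfl⟩ := Multiset.mem_map.mp hy
    exact pow_ne_zero _ (hQ x hx))
  rw [Multiset.map_map] at h3
  have h4 := Real.log_nonneg h2
  rw [h3] at h4
  exact h4

lemma aeval_of_mem {R : ℤ[X]} {x : ℝ} (h : (rp R).eval x = 0) : aeval x R = 0 := by
  rw [aeval_def, eval₂_eq_eval_map]
  exact h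

lemma dvd_of_common_root {R Q : ℤ[X]} (hQ : Q.Monic) (hI : Irreducible Q) {x : ℝ}
    (h1 : (rp R).eval x = 0) (h2 : (rp Q).eval x = 0) : Q ∣ R := by
  have hint : IsIntegral ℤ x := ⟨Q, hQ, aeval_of_mem h2⟩
  have hd := minpoly.isIntegrallyClosed_dvd hint (aeval_of_mem h2)
  have hd' := minpoly.isIntegrallyClosed_dvd hint (aeval_of_mem h1)
  have hass : Associated (minpoly ℤ x) Q :=
    (minpoly.irreducible hint).associated_of_dvd hI hd
  exact hass.symm.dvd.trans hd'

noncomputable def Q1 : ℤ[X] := X ^ 2 - C 3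
noncomputable def Q2 : ℤ[X] := X + C 2
noncomputable def Q3 : ℤ[X] := X - C 1
noncomputable def Q4 : ℤ[X] := X ^ 2 - X - C 5
noncomputable def Q5 : ℤ[X] := C 2 * X ^ 2 + C 2 * X - C 3
noncomputable def Q6 : ℤ[X] := X ^ 3 - C 2 * X ^ 2 - C 4 * X + C 6
noncomputable def Q7 : ℤ[X] := X ^ 4 - C 6 * X ^ 2 - X + C 7

lemma ev1 (x : ℝ) : (rp Q1).eval x = x ^ 2 - 3 := by simp [rp, Q1]
lemma ev2 (x : ℝ) : (rp Q2).eval x = x + 2 := by simp [rp, Q2]
lemma ev3 (x : ℝ) : (rp Q3).eval x = x - 1 := by simp [rp, Q3]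
lemma ev4 (x : ℝ) : (rp Q4).eval x = x ^ 2 - x - 5 := by simp [rp, Q4]
lemma ev5 (x : ℝ) : (rp Q5).eval x = 2 * x ^ 2 + 2 * x - 3 := by simp [rp, Q5]
lemma ev6 (x : ℝ) : (rp Q6).eval x = x ^ 3 - 2 * x ^ 2 - 4 * x + 6 := by simp [rp, Q6]
lemma ev7 (x : ℝ) : (rp Q7).eval x = x ^ 4 - 6 * x ^ 2 - x + 7 := by simp [rp, Q7]

lemma monic1 : Q1.Monic := by unfold Q1; monicity!
lemma monic2 : Q2.Monic := by unfold Q2; monicity!
lemma monic3 : Q3.Monic := by unfold Q3; monicity!
lemma monic4 : Q4.Monic := by unfold Q4; monicity!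
lemma monic6 : Q6.Monic := by unfold Q6; monicity!
lemma monic7 : Q7.Monic := by unfold Q7; monicity!

lemma deg1 : Q1.natDegree = 2 := by unfold Q1; compute_degree!
lemma deg2 : Q2.natDegree = 1 := by unfold Q2; compute_degree!
lemma deg3 : Q3.natDegree = 1 := by unfold Q3; compute_degree!
lemma deg4 : Q4.natDegree = 2 := by unfold Q4; compute_degree!
lemma deg6 : Q6.natDegree = 3 := by unfold Q6; compute_degree!
lemma deg7 : Q7.natDegree = 4 := by unfold Q7; compute_degree!

lemma irr_of_no_root {Q : ℤ[X]} (hQ : Q.Monic) (h2 : 2 ≤ Q.natDegree) (h3 : Q.natDegree ≤ 3)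
    (h : ∀ z : ℤ, Q.eval z ≠ 0) : Irreducible Q := by
  rw [hQ.irreducible_iff_roots_eq_zero_of_degree_le_three h2 h3, Multiset.eq_zero_iff_forall_notMem]
  intro z hz
  exact h z ((mem_roots hQ.ne_zero).mp hz)

lemma irr1 : Irreducible Q1 := by
  refine irr_of_no_root monic1 (by rw [deg1]) (by rw [deg1]; norm_num) (fun z h => ?_)
  have h1 : z ^ 2 - 3 = 0 := by simpa [Q1] using h
  have h2 : ((z ^ 2 - 3 : ℤ) : ZMod 5) = 0 := by rw [h1]; simp
  push_cast at h2
  generalize (z : ZMod 5) = w at h2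
  revert w; decide

lemma irr2 : Irreducible Q2 := monic2.irreducible_of_degree_eq_one
  ((degree_eq_iff_natDegree_eq monic2.ne_zero).mpr deg2)

lemma irr3 : Irreducible Q3 := monic3.irreducible_of_degree_eq_one
  ((degree_eq_iff_natDegree_eq monic3.ne_zero).mpr deg3)

lemma irr4 : Irreducible Q4 := by
  refine irr_of_no_root monic4 (by rw [deg4]) (by rw [deg4]; norm_num) (fun z h => ?_)
  have h1 : z ^ 2 - z - 5 = 0 := by simpa [Q4] using h
  have h2 : ((z ^ 2 - z - 5 : ℤ) : ZMod 2) = 0 := by rw [h1]; simp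
  push_cast at h2
  generalize (z : ZMod 2) = w at h2
  revert w; decide

lemma irr6 : Irreducible Q6 := by
  refine irr_of_no_root monic6 (by rw [deg6]; norm_num) (by rw [deg6]) (fun z h => ?_)
  have h1 : z ^ 3 - 2 * z ^ 2 - 4 * z + 6 = 0 := by simpa [Q6] using h
  have h2 : ((z ^ 3 - 2 * z ^ 2 - 4 * z + 6 : ℤ) : ZMod 5) = 0 := by rw [h1]; simp
  push_cast at h2
  generalize (z : ZMod 5) = w at h2
  revert w; decide

lemma monic_two {q : ℤ[X]} (hq : q.Monic) (hd : q.natDegree = 2) (z : ℤ) :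
    q.eval z = z ^ 2 + q.coeff 1 * z + q.coeff 0 := by
  conv_lhs => rw [hq.as_sum, hd]
  simp [Finset.sum_range_succ]
  ring

lemma irr7 : Irreducible Q7 := by
  have hne : Q7 ≠ 1 := by
    intro h
    have := deg7
    rw [h] at this
    simp at this
  rw [monic7.irreducible_iff_lt_natDegree_lt hne, deg7]
  rintro q hq hd ⟨r, hr⟩
  have hev : ∀ z : ℤ, z ^ 4 - 6 * z ^ 2 - z + 7 = q.eval z * r.eval z := by
    intro z
    rw [← eval_mul, ← hr]
    simp [Q7]
  have hrm : r.Monic := hq.of_mul_monic_left (hr ▸ monic7)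
  have hdeg : 4 = q.natDegree + r.natDegree := by rw [← hq.natDegree_mul hrm, ← hr, deg7]
  rw [Finset.mem_Ioc] at hd
  have hcase : q.natDegree = 1 ∨ q.natDegree = 2 := by omega
  rcases hcase with h1 | h2
  · have h3 := hev (-q.coeff 0)
    have h4 : q.eval (-q.coeff 0) = 0 := by
      conv_lhs => rw [hq.eq_X_add_C h1]
      simp
    rw [h4, zero_mul] at h3
    generalize -q.coeff 0 = z at h3
    have h5 : ((z ^ 4 - 6 * z ^ 2 - z + 7 : ℤ) : ZMod 2) = 0 := by rw [h3]; simp
    push_cast at h5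
    generalize (z : ZMod 2) = w at h5
    revert w; decide
  · have h3 : r.natDegree = 2 := by omega
    have e0 := hev 0
    have e1 := hev 1
    have e2 := hev (-1)
    have e3 := hev 2
    rw [monic_two hq h2, monic_two hrm h3] at e0 e1 e2 e3
    generalize q.coeff 1 = a at *
    generalize q.coeff 0 = b at *
    generalize r.coeff 1 = c at *
    generalize r.coeff 0 = d at *
    have f1 : a + c = 0 := by nlinarith
    have f2 : a * d + b * c = -1 := by nlinarith
    have f3 : b * d = 7 := by nlinarith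
    have g1 : ((a + c : ℤ) : ZMod 2) = 0 := by rw [f1]; simp
    have g2 : ((a * d + b * c : ℤ) : ZMod 2) = 1 := by rw [f2]; decide
    have g3 : ((b * d : ℤ) : ZMod 2) = 1 := by rw [f3]; decide
    push_cast at g1 g2 g3
    generalize (a : ZMod 2) = a' at *
    generalize (b : ZMod 2) = b' at *
    generalize (c : ZMod 2) = c' at *
    generalize (d : ZMod 2) = d' at *
    revert g1 g2 g3
    revert a' b' c' d'
    decide

lemma Q5_ne {R : ℤ[X]} (hR : R.Monic) {x : ℝ} (h1 : (rp R).eval x = 0) : (rp Q5).eval x ≠ 0 := by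
  intro h2
  rw [ev5] at h2
  have hint : IsIntegral ℤ x := ⟨R, hR, aeval_of_mem h1⟩
  have h3 : IsIntegral ℤ (x ^ 2 + x) := (hint.pow 2).add hint
  have h4 : x ^ 2 + x = algebraMap ℚ ℝ (3 / 2) := by
    simp only [eq_ratCast]
    push_cast
    linarith
  rw [h4, isIntegral_algebraMap_iff (algebraMap ℚ ℝ).injective] at h3
  obtain ⟨z, hz⟩ := IsIntegrallyClosed.isIntegral_iff.mp h3
  simp only [eq_intCast] at hz
  have h5 : (2 * z : ℚ) = 3 := by rw [hz]; norm_num
  have h6 : 2 * z = 3 := by exact_mod_cast h5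
  omega

lemma ind_le_one (x : ℝ) : ind x ≤ 1 := by unfold ind; split_ifs <;> norm_num

lemma lt_of_lt_sqrt {x : ℝ} (h : x < -√3) : x < 0 ∧ 3 < x ^ 2 := by
  have h1 : 0 ≤ √3 := Real.sqrt_nonneg 3
  have h2 : √3 ^ 2 = 3 := Real.sq_sqrt (by norm_num)
  constructor
  · linarith
  · nlinarith

lemma roots_eval {Q : ℤ[X]} (hQ : Q.Monic) (hs : (rp Q).Splits) :
    (rp Q).roots.card = Q.natDegree ∧
      ∀ x, (rp Q).eval x = ((rp Q).roots.map (fun a => x - a)).prod :=
  ⟨by rw [← hs.natDegree_eq_card_roots, hQ.natDegree_map],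
    fun x => hs.eval_eq_prod_roots_of_monic (hQ.map _) x⟩

lemma atom1 (hs : (rp Q1).Splits) : 0 ≤ ((rp Q1).roots.map phi).sum := by
  obtain ⟨hc, h⟩ := roots_eval monic1 hs
  rw [deg1, Multiset.card_eq_two] at hc
  obtain ⟨a, b, hab⟩ := hc
  simp only [hab, ev1, Multiset.insert_eq_cons, Multiset.map_cons, Multiset.map_singleton,
    Multiset.prod_cons, Multiset.prod_singleton, Multiset.sum_cons, Multiset.sum_singleton] at h ⊢
  have ha : a ^ 2 = 3 := by linarith [h a]
  have hb : b ^ 2 = 3 := by linarith [h b]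
  have hab' : a + b = 0 := by linarith [h 0, h 1]
  have ia : ind a = 0 := if_neg (fun hlt => by linarith [(lt_of_lt_sqrt hlt).2])
  have ib : ind b = 0 := if_neg (fun hlt => by linarith [(lt_of_lt_sqrt hlt).2])
  have ha4 : a ^ 4 = 9 := by nlinarith
  have hb4 : b ^ 4 = 9 := by nlinarith
  rw [phi_eq, phi_eq, ia, ib]
  linarith

lemma atom2 (hs : (rp Q2).Splits) : 0 ≤ ((rp Q2).roots.map phi).sum := by
  obtain ⟨hc, h⟩ := roots_eval monic2 hs
  rw [deg2, Multiset.card_eq_one] at hc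
  obtain ⟨a, hab⟩ := hc
  simp only [hab, ev2, Multiset.map_singleton, Multiset.prod_singleton,
    Multiset.sum_singleton] at h ⊢
  have ha : a = -2 := by linarith [h 0]
  rw [phi_eq]
  have := ind_le_one a
  rw [ha] at this ⊢
  linarith

lemma atom3 (hs : (rp Q3).Splits) : 0 ≤ ((rp Q3).roots.map phi).sum := by
  obtain ⟨hc, h⟩ := roots_eval monic3 hs
  rw [deg3, Multiset.card_eq_one] at hc
  obtain ⟨a, hab⟩ := hc
  simp only [hab, ev3, Multiset.map_singleton, Multiset.prod_singleton,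
    Multiset.sum_singleton] at h ⊢
  have ha : a = 1 := by linarith [h 0]
  have ia : ind a = 0 := if_neg (fun hlt => by linarith [(lt_of_lt_sqrt hlt).1])
  rw [phi_eq, ia, ha]
  norm_num

lemma atom4 (hs : (rp Q4).Splits) : 0 ≤ ((rp Q4).roots.map phi).sum := by
  obtain ⟨hc, h⟩ := roots_eval monic4 hs
  rw [deg4, Multiset.card_eq_two] at hc
  obtain ⟨a, b, hab⟩ := hc
  simp only [hab, ev4, Multiset.insert_eq_cons, Multiset.map_cons, Multiset.map_singleton,
    Multiset.prod_cons, Multiset.prod_singleton, Multiset.sum_cons, Multiset.sum_singleton] at h ⊢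
  have ha : a ^ 2 = a + 5 := by linarith [h a]
  have hb : b ^ 2 = b + 5 := by linarith [h b]
  have hab' : a + b = 1 := by linarith [h 0, h 1]
  have ha4 : a ^ 4 = 11 * a + 30 := by linear_combination (a ^ 2 + a + 6) * ha
  have hb4 : b ^ 4 = 11 * b + 30 := by linear_combination (b ^ 2 + b + 6) * hb
  have hi : ind a + ind b ≤ 1 := by
    unfold ind
    split_ifs with h1 h2
    · linarith [(lt_of_lt_sqrt h1).1, (lt_of_lt_sqrt h2).1]
    all_goals norm_num
  rw [phi_eq, phi_eq]
  linarith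

lemma pair6 {a b c : ℝ} (e1 : a + b + c = 2) (e3 : a * b * c = -6) (ha : a < -√3) (hb : b < -√3) :
    False := by
  have h1 := (lt_of_lt_sqrt ha).1
  have h2 := (lt_of_lt_sqrt hb).1
  have h3 : 0 < a * b := mul_pos_of_neg_of_neg h1 h2
  have h4 : 0 < a * b * c := mul_pos h3 (by linarith)
  linarith

lemma atom6 (hs : (rp Q6).Splits) : 0 ≤ ((rp Q6).roots.map phi).sum := by
  obtain ⟨hc, h⟩ := roots_eval monic6 hs
  rw [deg6, Multiset.card_eq_three] at hc
  obtain ⟨a, b, c, hab⟩ := hc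
  simp only [hab, ev6, Multiset.insert_eq_cons, Multiset.map_cons, Multiset.map_singleton,
    Multiset.prod_cons, Multiset.prod_singleton, Multiset.sum_cons, Multiset.sum_singleton] at h ⊢
  have ha : a ^ 3 - 2 * a ^ 2 - 4 * a + 6 = 0 := by linarith [h a]
  have hb : b ^ 3 - 2 * b ^ 2 - 4 * b + 6 = 0 := by linarith [h b]
  have hc : c ^ 3 - 2 * c ^ 2 - 4 * c + 6 = 0 := by linarith [h c]
  have e1 : a + b + c = 2 := by linarith [h 0, h 1, h (-1)]
  have e2 : a * b + a * c + b * c = -4 := by linarith [h 0, h 1, h (-1)]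
  have e3 : a * b * c = -6 := by linarith [h 0]
  have p2 : a ^ 2 + b ^ 2 + c ^ 2 = 12 := by linear_combination (a + b + c + 2) * e1 - 2 * e2
  have ha4 : a ^ 4 = 8 * a ^ 2 + 2 * a - 12 := by linear_combination (a + 2) * ha
  have hb4 : b ^ 4 = 8 * b ^ 2 + 2 * b - 12 := by linear_combination (b + 2) * hb
  have hc4 : c ^ 4 = 8 * c ^ 2 + 2 * c - 12 := by linear_combination (c + 2) * hc
  have hi : ind a + ind b + ind c ≤ 1 := by
    have k1 := pair6 e1 e3
    have k2 := pair6 (a := a) (b := c) (c := b) (by linarith) (by linarith)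
    have k3 := pair6 (a := b) (b := c) (c := a) (by linarith) (by linarith)
    unfold ind
    split_ifs <;> first | (norm_num; done) | (exfalso; tauto)
  rw [phi_eq, phi_eq, phi_eq]
  linarith

lemma pair7 {a b c d : ℝ} (e1 : a + b + c + d = 0)
    (e2 : a * b + a * c + a * d + b * c + b * d + c * d = -6)
    (e3 : a * b * c + a * b * d + a * c * d + b * c * d = 1) (ha : a < -√3) (hb : b < -√3) :
    False := by
  have h1 := lt_of_lt_sqrt ha
  have h2 := lt_of_lt_sqrt hb
  have h3 : (a + b) * (a ^ 2 + b ^ 2 - 6) = 1 := by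
    linear_combination e3 - (a * b - (a + b) ^ 2) * e1 - (a + b) * e2
  have h4 : (a + b) * (a ^ 2 + b ^ 2 - 6) < 0 :=
    mul_neg_of_neg_of_pos (by linarith [h1.1, h2.1]) (by linarith [h1.2, h2.2])
  linarith

lemma atom7 (hs : (rp Q7).Splits) : 0 ≤ ((rp Q7).roots.map phi).sum := by
  obtain ⟨hc, h⟩ := roots_eval monic7 hs
  rw [deg7, Multiset.card_eq_four] at hc
  obtain ⟨a, b, c, d, hab⟩ := hc
  simp only [hab, ev7, Multiset.insert_eq_cons, Multiset.map_cons, Multiset.map_singleton,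
    Multiset.prod_cons, Multiset.prod_singleton, Multiset.sum_cons, Multiset.sum_singleton] at h ⊢
  have ha : a ^ 4 = 6 * a ^ 2 + a - 7 := by linarith [h a]
  have hb : b ^ 4 = 6 * b ^ 2 + b - 7 := by linarith [h b]
  have hc : c ^ 4 = 6 * c ^ 2 + c - 7 := by linarith [h c]
  have hd : d ^ 4 = 6 * d ^ 2 + d - 7 := by linarith [h d]
  have e1 : a + b + c + d = 0 := by linarith [h 0, h 1, h (-1), h 2]
  have e2 : a * b + a * c + a * d + b * c + b * d + c * d = -6 := by
    linarith [h 0, h 1, h (-1), h 2]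
  have e3 : a * b * c + a * b * d + a * c * d + b * c * d = 1 := by
    linarith [h 0, h 1, h (-1), h 2]
  have p2 : a ^ 2 + b ^ 2 + c ^ 2 + d ^ 2 = 12 := by
    linear_combination (a + b + c + d) * e1 - 2 * e2
  have hi : ind a + ind b + ind c + ind d ≤ 1 := by
    have k1 := pair7 e1 e2 e3
    have k2 := pair7 (a := a) (b := c) (c := b) (d := d) (by linarith) (by linarith) (by linarith)
    have k3 := pair7 (a := a) (b := d) (c := b) (d := c) (by linarith) (by linarith) (by linarith)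
    have k4 := pair7 (a := b) (b := c) (c := a) (d := d) (by linarith) (by linarith) (by linarith)
    have k5 := pair7 (a := b) (b := d) (c := a) (d := c) (by linarith) (by linarith) (by linarith)
    have k6 := pair7 (a := c) (b := d) (c := a) (d := b) (by linarith) (by linarith) (by linarith)
    unfold ind
    split_ifs <;> first | (norm_num; done) | (exfalso; tauto)
  rw [phi_eq, phi_eq, phi_eq, phi_eq]
  linarith

lemma logsum_eq (x : ℝ) : logsum cqs x =
    10849 / 500000 * Real.log ((rp Q1).eval x ^ 2) + 4239 / 1000000 * Real.log ((rp Q2).eval x ^ 2)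
    + 1657 / 1000000 * Real.log ((rp Q3).eval x ^ 2) + 3431 / 1000000 * Real.log ((rp Q4).eval x ^ 2)
    + 569 / 500000 * Real.log ((rp Q5).eval x ^ 2) + 1199 / 500000 * Real.log ((rp Q6).eval x ^ 2)
    + 2201 / 1000000 * Real.log ((rp Q7).eval x ^ 2) := by
  rw [ev1, ev2, ev3, ev4, ev5, ev6, ev7]
  simp only [logsum, cqs, ev]
  push_cast
  ring_nf

lemma generic {R : ℤ[X]} (hR : R.Monic) (hs : (rp R).Splits) (hb : ∀ x ∈ (rp R).roots, |x| ≤ 4)
    (h1 : ¬ Q1 ∣ R) (h2 : ¬ Q2 ∣ R) (h3 : ¬ Q3 ∣ R) (h4 : ¬ Q4 ∣ R) (h6 : ¬ Q6 ∣ R)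
    (h7 : ¬ Q7 ∣ R) : 0 ≤ ((rp R).roots.map phi).sum := by
  have hr : ∀ x ∈ (rp R).roots, (rp R).eval x = 0 := fun x hx => isRoot_of_mem_roots hx
  have n1 : ∀ x ∈ (rp R).roots, (rp Q1).eval x ≠ 0 :=
    fun x hx h => h1 (dvd_of_common_root monic1 irr1 (hr x hx) h)
  have n2 : ∀ x ∈ (rp R).roots, (rp Q2).eval x ≠ 0 :=
    fun x hx h => h2 (dvd_of_common_root monic2 irr2 (hr x hx) h)
  have n3 : ∀ x ∈ (rp R).roots, (rp Q3).eval x ≠ 0 :=
    fun x hx h => h3 (dvd_of_common_root monic3 irr3 (hr x hx) h)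
  have n4 : ∀ x ∈ (rp R).roots, (rp Q4).eval x ≠ 0 :=
    fun x hx h => h4 (dvd_of_common_root monic4 irr4 (hr x hx) h)
  have n5 : ∀ x ∈ (rp R).roots, (rp Q5).eval x ≠ 0 := fun x hx => Q5_ne hR (hr x hx)
  have n6 : ∀ x ∈ (rp R).roots, (rp Q6).eval x ≠ 0 :=
    fun x hx h => h6 (dvd_of_common_root monic6 irr6 (hr x hx) h)
  have n7 : ∀ x ∈ (rp R).roots, (rp Q7).eval x ≠ 0 :=
    fun x hx h => h7 (dvd_of_common_root monic7 irr7 (hr x hx) h)
  have hle : ((rp R).roots.map (logsum cqs)).sum ≤ ((rp R).roots.map phi).sum := by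
    apply Multiset.sum_map_le_sum_map
    intro x hx
    apply pointwise (hb x hx)
    have m1 := n1 x hx
    have m2 := n2 x hx
    have m3 := n3 x hx
    have m4 := n4 x hx
    have m5 := n5 x hx
    have m6 := n6 x hx
    have m7 := n7 x hx
    rw [ev1] at m1
    rw [ev2] at m2
    rw [ev3] at m3
    rw [ev4] at m4
    rw [ev5] at m5
    rw [ev6] at m6
    rw [ev7] at m7
    intro cq hcq
    simp only [cqs, List.mem_cons, List.not_mem_nil, or_false] at hcq
    rcases hcq with rfl | rfl | rfl | rfl | rfl | rfl | rfl <;> simp only [ev] <;> push_cast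
    · convert m1 using 1; ring
    · convert m2 using 1; ring
    · convert m3 using 1; ring
    · convert m4 using 1; ring
    · convert m5 using 1; ring
    · convert m6 using 1; ring
    · convert m7 using 1; ring
  refine le_trans ?_ hle
  have hfun : logsum cqs = fun x => logsum cqs x := rfl
  rw [hfun]
  simp only [logsum_eq, Multiset.sum_map_add, Multiset.sum_map_mul_left]
  have l1 := log_sum_nonneg hR hs Q1 n1
  have l2 := log_sum_nonneg hR hs Q2 n2
  have l3 := log_sum_nonneg hR hs Q3 n3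
  have l4 := log_sum_nonneg hR hs Q4 n4
  have l5 := log_sum_nonneg hR hs Q5 n5
  have l6 := log_sum_nonneg hR hs Q6 n6
  have l7 := log_sum_nonneg hR hs Q7 n7
  positivity

theorem sum_phi_nonneg (n : ℕ) : ∀ R : ℤ[X], R.natDegree = n → R.Monic → (rp R).Splits →
    (∀ x ∈ (rp R).roots, |x| ≤ 4) → 0 ≤ ((rp R).roots.map phi).sum := by
  induction n using Nat.strong_induction_on with
  | _ n ih =>
    intro R hn hR hs hb
    have step : ∀ Q : ℤ[X], Q.Monic → 0 < Q.natDegree →
        ((rp Q).Splits → 0 ≤ ((rp Q).roots.map phi).sum) → Q ∣ R →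
        0 ≤ ((rp R).roots.map phi).sum := by
      rintro Q hQ hd hat ⟨S, hS⟩
      have hSm : S.Monic := hQ.of_mul_monic_left (hS ▸ hR)
      have hmul : rp R = rp Q * rp S := by rw [hS]; exact Polynomial.map_mul _
      have hne : rp Q * rp S ≠ 0 := hmul ▸ (hR.map _).ne_zero
      have hdeg : R.natDegree = Q.natDegree + S.natDegree := by rw [hS, hQ.natDegree_mul hSm]
      have hsQ : (rp Q).Splits := hs.of_dvd (hR.map _).ne_zero ⟨_, hmul⟩
      have hsS : (rp S).Splits := hs.of_dvd (hR.map _).ne_zero ⟨rp Q, by rw [hmul, mul_comm]⟩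
      have hroots : (rp R).roots = (rp Q).roots + (rp S).roots := by rw [hmul, roots_mul hne]
      rw [hroots, Multiset.map_add, Multiset.sum_add]
      refine add_nonneg (hat hsQ) (ih S.natDegree (by omega) S rfl hSm hsS (fun x hx => hb x ?_))
      rw [hroots]
      exact Multiset.mem_add.mpr (Or.inr hx)
    by_cases h1 : Q1 ∣ R
    · exact step Q1 monic1 (by rw [deg1]; norm_num) atom1 h1
    by_cases h2 : Q2 ∣ R
    · exact step Q2 monic2 (by rw [deg2]; norm_num) atom2 h2
    by_cases h3 : Q3 ∣ R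
    · exact step Q3 monic3 (by rw [deg3]; norm_num) atom3 h3
    by_cases h4 : Q4 ∣ R
    · exact step Q4 monic4 (by rw [deg4]; norm_num) atom4 h4
    by_cases h6 : Q6 ∣ R
    · exact step Q6 monic6 (by rw [deg6]; norm_num) atom6 h6
    by_cases h7 : Q7 ∣ R
    · exact step Q7 monic7 (by rw [deg7]; norm_num) atom7 h7
    exact generic hR hs hb h1 h2 h3 h4 h6 h7

end Pool.Agent.P.MP_46d9e0_co
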